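import Pool.Agent.Q237.LR.Stm2

/-! Job EIG: an eigenvector makes `Im G` large and the self energy small. -/

set_option autoImplicit false

namespace Pool.Agent.Q139.LR

open MeasureTheory ProbabilityTheory Set H10PL Pool.Agent.Q237.LR2

section

variable {d : ℕ} {T0 : (Fin d → ℤ) → (Fin d → ℤ) → ℝ} {κ : (Fin d → ℤ) → ℝ} {ρ0 b : ℝ}

/-- the pairing of a finitely supported function with an eigenvector -/
theorem pair_eq (h : Adm T0 κ ρ0 b) (s : Sym2 (Fin d → ℤ) → Bool) (V : (Fin d → ℤ) → ℝ)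
    (E E0 : ℝ) (ψ : (Fin d → ℤ) → ℝ) (hψ : IsEig T0 κ s V E0 ψ) (f : (Fin d → ℤ) →₀ ℝ) :
    HasSum (fun y => appl T0 κ s V E f y * ψ y) ((E0 - E) * ∑ y ∈ f.support, f y * ψ y) := by
  classical
  obtain ⟨hsum, heq⟩ := hψ
  have h1 : ∀ w ∈ f.support, HasSum (fun y => Kf T0 κ s y w * f w * ψ y)
      (f w * ∑' y, Kf T0 κ s w y * ψ y) := by
    intro w _
    have h2 := (cs_tsum (Kf_sq_summable h s w) hsum).1.hasSum.mul_left (f w)
    have e : (fun y => Kf T0 κ s y w * f w * ψ y) =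
        fun y => f w * (Kf T0 κ s w y * ψ y) := by
      funext y
      rw [Kf_symm h s y w]
      ring
    rw [e]
    exact h2
  have h3 : HasSum (fun y => ∑ w ∈ f.support, Kf T0 κ s y w * f w * ψ y)
      (∑ w ∈ f.support, f w * ∑' y, Kf T0 κ s w y * ψ y) := hasSum_sum h1
  have h4 : HasSum (fun y => (V y - E) * f y * ψ y)
      (∑ w ∈ f.support, (V w - E) * f w * ψ w) := by
    apply hasSum_sum_of_ne_finset_zero
    intro y hy
    rw [Finsupp.notMem_support_iff.mp hy]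
    ring
  have h5 := h3.add h4
  rw [← Finset.sum_add_distrib] at h5
  have h6 : ∑ w ∈ f.support, (f w * ∑' y, Kf T0 κ s w y * ψ y + (V w - E) * f w * ψ w) =
      (E0 - E) * ∑ y ∈ f.support, f y * ψ y := by
    rw [Finset.mul_sum]
    refine Finset.sum_congr rfl fun w _ => ?_
    have h8 := heq w
    linear_combination (f w) * h8
  rw [h6] at h5
  have e : (fun y => appl T0 κ s V E f y * ψ y) =
      fun y => ∑ w ∈ f.support, Kf T0 κ s y w * f w * ψ y + (V y - E) * f y * ψ y := by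
    funext y
    unfold appl
    rw [add_mul, Finset.sum_mul]
  rw [e]
  exact h5

/-- the real part of the resolvent equation -/
theorem real_part {ι : Type*} [Fintype ι] [DecidableEq ι] (A : Matrix ι ι ℝ) (hA : A.IsSymm)
    (V : ι → ℝ) (E : ℝ) {η : ℝ} (hη : 0 < η) (i x : ι) :
    (∑ j, A i j * (Gm A V E η j x).re) + (V i - E) * (Gm A V E η i x).re =
      (if i = x then 1 else 0) - η * Pm A V E η i x := by
  have h1 : (Matrix.mulVec (Mz A V E η) (fun j => Gm A V E η j x)) i = (1 : Matrix ι ι ℂ) i x := by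
    have := congrFun (congrFun (Mz_mul_Gm A hA V E hη) i) x
    rw [Matrix.mul_apply] at this
    exact this
  rw [Mz_mulVec] at h1
  have h2 := congrArg Complex.re h1
  have h3 : ((1 : Matrix ι ι ℂ) i x).re = if i = x then 1 else 0 := by
    rw [Matrix.one_apply]; split_ifs <;> simp
  rw [h3, Complex.add_re, Complex.re_sum] at h2
  have h4 : ∀ j, ((A i j : ℂ) * Gm A V E η j x).re = A i j * (Gm A V E η j x).re := by
    intro j; rw [Complex.re_ofReal_mul]
  have h5 : (((V i : ℂ) - ((E : ℂ) + (η : ℂ) * Complex.I)) * Gm A V E η i x).re =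
      (V i - E) * (Gm A V E η i x).re + η * Pm A V E η i x := by
    rw [Complex.mul_re]
    simp only [Complex.sub_re, Complex.ofReal_re, Complex.add_re, Complex.mul_re, Complex.I_re,
      mul_zero, Complex.ofReal_im, Complex.I_im, mul_one, sub_self, add_zero, Complex.sub_im,
      Complex.add_im, Complex.mul_im, zero_add, zero_sub]
    show (V i - E) * (Gm A V E η i x).re - -η * Pm A V E η i x = _
    ring
  simp only [h4, h5] at h2
  linarith

theorem abs_sum_le (Λ : Finset (Fin d → ℤ)) (g ψ : (Fin d → ℤ) → ℝ)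
    (hs : Summable fun y => ψ y ^ 2) (hψ : ∑' y, ψ y ^ 2 ≤ 1) {Q : ℝ}
    (hg : ∑ y ∈ Λ, g y ^ 2 ≤ Q) : |∑ y ∈ Λ, g y * ψ y| ≤ Real.sqrt Q := by
  have h1 := Finset.sum_mul_sq_le_sq_mul_sq Λ g ψ
  have h2 : ∑ y ∈ Λ, ψ y ^ 2 ≤ 1 := (hs.sum_le_tsum Λ (fun y _ => sq_nonneg _)).trans hψ
  have h3 : 0 ≤ ∑ y ∈ Λ, g y ^ 2 := Finset.sum_nonneg fun y _ => sq_nonneg _
  have h4 : 0 ≤ ∑ y ∈ Λ, ψ y ^ 2 := Finset.sum_nonneg fun y _ => sq_nonneg _
  refine Real.abs_le_sqrt ?_
  nlinarith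

end

theorem eig (htri : S_TRI) : S_EIG := by
  classical
  intro d T0 κ ρ0 b s V E E0 c x ρ r T η Λ ψ h hρ hρ0 hr hη hΛ hT0 hT hψ hψ1 hc hcx hE c1 c2
  have hx : x ∈ Λ := hΛ x (by rw [sub_self, norm_zero]; positivity)
  have hAs := Am_symm h ρ Λ s
  set A := Am T0 κ ρ Λ s with hA
  set V' : Λ → ℝ := fun i => V i with hV'
  set X : Λ := ⟨x, hx⟩ with hX
  have hPL : PL T0 κ ρ η Λ x (E, V, s) = Pm A V' E η X X := by
    unfold PL
    rw [dif_pos hx]
  have hSL : SL T0 κ ρ η Λ x (E, V, s) = (Sg A V' E η X).im := by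
    unfold SL
    rw [dif_pos hx]
  rw [hPL, hSL]
  set P := Pm A V' E η X X with hP
  have hPpos : 0 < P := Pm_diag_pos A hAs V' E hη X
  -- the vectors
  set ua : (Fin d → ℤ) → ℝ := fun y => if hy : y ∈ Λ then (Gm A V' E η ⟨y, hy⟩ X).re else 0 with hua
  set ub : (Fin d → ℤ) → ℝ := fun y => if hy : y ∈ Λ then Pm A V' E η ⟨y, hy⟩ X else 0 with hub
  set χ : (Fin d → ℤ) → ℝ := fun y => max 0 (1 - ‖y - x‖ / r) with hχ
  have hχ0 : ∀ y, 0 ≤ χ y := fun y => le_max_left _ _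
  have hχ1 : ∀ y, χ y ≤ 1 := fun y => max_le zero_le_one (by
    have : 0 ≤ ‖y - x‖ / r := div_nonneg (norm_nonneg _) hr.le
    linarith)
  have hχx : χ x = 1 := by
    simp [hχ]
  have huaΛ : ∀ i : Λ, ua i = (Gm A V' E η i X).re := by
    intro i
    simp only [hua, dif_pos i.2]
  have hubΛ : ∀ i : Λ, ub i = Pm A V' E η i X := by
    intro i
    simp only [hub, dif_pos i.2]
  have hw := ward A hAs V' E hη X
  have nA : ∑ y ∈ Λ, ua y ^ 2 ≤ P / η := by
    rw [← Finset.sum_coe_sort Λ, ← hw]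
    refine Finset.sum_le_sum fun i _ => ?_
    rw [huaΛ]
    exact re_sq_le _
  have nB : ∑ y ∈ Λ, ub y ^ 2 ≤ P / η := by
    rw [← Finset.sum_coe_sort Λ, ← hw]
    refine Finset.sum_le_sum fun i _ => ?_
    rw [hubΛ]
    exact im_sq_le _
  have hPη : P / η ≤ (1 / η) ^ 2 := by
    have := Pm_diag_le A hAs V' E hη X
    calc P / η ≤ (1 / η) / η := div_le_div_of_nonneg_right this hη.le
      _ = (1 / η) ^ 2 := by field_simp
  -- the trial function
  set f0 : (Fin d → ℤ) → ℝ := fun y => if y ∈ Λ then χ y * ua y else 0 with hf0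
  set g0 : (Fin d → ℤ) → ℝ := fun y => if y ∈ Λ then χ y * ub y else 0 with hg0
  let f : (Fin d → ℤ) →₀ ℝ := Finsupp.onFinset Λ f0 (fun y hy => by
    by_contra hcon
    exact hy (by simp only [hf0, if_neg hcon]))
  have hf : ∀ y, f y = if y ∈ Λ then max 0 (1 - ‖y - x‖ / r) * ua y else 0 := fun y => rfl
  obtain ⟨hRs, hR⟩ := htri d T0 κ ρ0 b s V E x ρ r T Λ ua f h hρ hρ0 hr hΛ hf hT0 hT
  set R : (Fin d → ℤ) → ℝ := fun y => appl T0 κ s V E f y - (if y ∈ Λ then
    max 0 (1 - ‖y - x‖ / r) * ((∑ w ∈ Λ, Kr T0 κ ρ s y w * ua w) + (V y - E) * ua y) else 0)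
    with hRdef
  have hrow : ∀ y, y ∈ Λ → (∑ w ∈ Λ, Kr T0 κ ρ s y w * ua w) + (V y - E) * ua y =
      (if y = x then 1 else 0) - η * ub y := by
    intro y hy
    have h1 := real_part A hAs V' E hη ⟨y, hy⟩ X
    have h2 : ∑ j : Λ, A ⟨y, hy⟩ j * (Gm A V' E η j X).re = ∑ w ∈ Λ, Kr T0 κ ρ s y w * ua w := by
      rw [← Finset.sum_coe_sort Λ]
      refine Finset.sum_congr rfl fun i _ => ?_
      rw [huaΛ]
      rfl
    have h3 : ((⟨y, hy⟩ : Λ) = X) = (y = x) := by
      rw [hX, Subtype.mk.injEq]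
    rw [h2] at h1
    have h4 := huaΛ ⟨y, hy⟩
    have h5 := hubΛ ⟨y, hy⟩
    simp only at h4 h5
    rw [h4, h5]
    simp only [h3] at h1
    exact h1
  have hRy : ∀ y, appl T0 κ s V E f y = R y + (if y = x then 1 else 0) - η * g0 y := by
    intro y
    simp only [hRdef, hg0]
    by_cases hy : y ∈ Λ
    · rw [if_pos hy, if_pos hy, hrow y hy]
      by_cases hyx : y = x
      · subst hyx
        simp only [if_true]
        have : max 0 (1 - ‖y - y‖ / r) = 1 := hχx
        simp only [hχ, this]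
        ring
      · simp only [if_neg hyx, hχ]
        ring
    · have hyx : y ≠ x := fun hcon => hy (hcon ▸ hx)
      rw [if_neg hy, if_neg hy, if_neg hyx]
      ring
  -- norms
  have sR : Real.sqrt (∑' y, R y ^ 2) ≤ c / 2 := by
    have t1 : Real.sqrt (∑ y ∈ Λ, ua y ^ 2) ≤ 1 / η := by
      rw [← Real.sqrt_sq (show 0 ≤ 1 / η by positivity)]
      exact Real.sqrt_le_sqrt (nA.trans hPη)
    have t2 : ∑' y, (∑ w ∈ Λ, (Kf T0 κ s y w - Kr T0 κ ρ s y w) * f w) ^ 2 =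
        Rs T0 κ ρ η Λ r x (E, V, s) := by
      unfold Rs
      refine tsum_congr fun y => ?_
      congr 1
      refine Finset.sum_congr rfl fun w hw' => ?_
      congr 1
      unfold fa
      rw [dif_pos hx, dif_pos hw', hf w, if_pos hw']
      have := huaΛ ⟨w, hw'⟩
      simp only at this
      rw [this]
    have t3 : Real.sqrt (∑' y, (∑ w ∈ Λ, (Kf T0 κ s y w - Kr T0 κ ρ s y w) * f w) ^ 2) ≤ c / 4 := by
      rw [t2, ← Real.sqrt_sq (show 0 ≤ c / 4 by positivity)]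
      exact Real.sqrt_le_sqrt c2
    have t4 : (ρ / r) * T * Real.sqrt (∑ y ∈ Λ, ua y ^ 2) ≤ c / 4 := by
      refine le_trans ?_ c1
      exact mul_le_mul_of_nonneg_left t1 (by positivity)
    linarith
  obtain ⟨hψs, hψe⟩ := hψ
  have hRψ := cs_tsum hRs hψs
  have hRψ2 : |∑' y, R y * ψ y| ≤ c / 2 := by
    refine le_trans (Real.abs_le_sqrt hRψ.2) ?_
    refine le_trans (Real.sqrt_le_sqrt ?_) sR
    exact mul_le_of_le_one_right (tsum_nonneg fun y => sq_nonneg _) hψ1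
  have hpair := pair_eq h s V E E0 ψ ⟨hψs, hψe⟩ f
  -- sum of the decomposition
  have hg0s : HasSum (fun y => g0 y * ψ y) (∑ y ∈ Λ, g0 y * ψ y) := by
    apply hasSum_sum_of_ne_finset_zero
    intro y hy
    simp only [hg0, if_neg hy, zero_mul]
  have hdel : HasSum (fun y => (if y = x then (1 : ℝ) else 0) * ψ y) (ψ x) := by
    have h1 : HasSum (fun y => (if y = x then (1 : ℝ) else 0) * ψ y)
        (∑ y ∈ {x}, (if y = x then (1 : ℝ) else 0) * ψ y) := by
      apply hasSum_sum_of_ne_finset_zero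
      intro y hy
      rw [Finset.mem_singleton] at hy
      rw [if_neg hy, zero_mul]
    rw [Finset.sum_singleton, if_pos rfl, one_mul] at h1
    exact h1
  have hall : HasSum (fun y => appl T0 κ s V E f y * ψ y)
      ((∑' y, R y * ψ y) + ψ x - η * ∑ y ∈ Λ, g0 y * ψ y) := by
    have h1 := (hRψ.1.hasSum.add hdel).sub (hg0s.mul_left η)
    have e : (fun y => appl T0 κ s V E f y * ψ y) = fun y => (R y * ψ y +
        (if y = x then (1 : ℝ) else 0) * ψ y) - η * (g0 y * ψ y) := by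
      funext y
      rw [hRy y]
      ring
    rw [e]
    exact h1
  have hid := hpair.unique hall
  -- bounds of the two sums
  have nf : ∑ y ∈ Λ, f0 y ^ 2 ≤ P / η := by
    refine le_trans (Finset.sum_le_sum fun y hy => ?_) nA
    simp only [hf0, if_pos hy, mul_pow]
    exact mul_le_of_le_one_left (sq_nonneg _) (pow_le_one₀ (hχ0 y) (hχ1 y))
  have ng : ∑ y ∈ Λ, g0 y ^ 2 ≤ P / η := by
    refine le_trans (Finset.sum_le_sum fun y hy => ?_) nB
    simp only [hg0, if_pos hy, mul_pow]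
    exact mul_le_of_le_one_left (sq_nonneg _) (pow_le_one₀ (hχ0 y) (hχ1 y))
  have hfΛ : ∑ y ∈ f.support, f y * ψ y = ∑ y ∈ Λ, f0 y * ψ y := by
    refine Finset.sum_subset (fun y hy => ?_) fun y _ hy => ?_
    · by_contra hcon
      have := Finsupp.mem_support_iff.mp hy
      rw [hf y, if_neg hcon] at this
      exact this rfl
    · have := Finsupp.notMem_support_iff.mp hy
      rw [this, zero_mul]
  rw [hfΛ] at hid
  have af := abs_sum_le Λ f0 ψ hψs hψ1 nf
  have ag := abs_sum_le Λ g0 ψ hψs hψ1 ng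
  set Q := Real.sqrt (P / η) with hQ
  have hQ0 : 0 ≤ Q := Real.sqrt_nonneg _
  have hE' : |E0 - E| ≤ η := by rw [abs_sub_comm]; exact hE
  have hmain : c / 2 ≤ 2 * (η * Q) := by
    have e1 : ψ x = (E0 - E) * ∑ y ∈ Λ, f0 y * ψ y - (∑' y, R y * ψ y) +
        η * ∑ y ∈ Λ, g0 y * ψ y := by linarith
    have e2 : |(E0 - E) * ∑ y ∈ Λ, f0 y * ψ y| ≤ η * Q := by
      rw [abs_mul]
      exact mul_le_mul hE' af (abs_nonneg _) hη.le
    have e3 : |η * ∑ y ∈ Λ, g0 y * ψ y| ≤ η * Q := by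
      rw [abs_mul, abs_of_pos hη]
      exact mul_le_mul_of_nonneg_left ag hη.le
    have e4 := abs_add_le ((E0 - E) * ∑ y ∈ Λ, f0 y * ψ y - (∑' y, R y * ψ y))
      (η * ∑ y ∈ Λ, g0 y * ψ y)
    have e5 := abs_sub ((E0 - E) * ∑ y ∈ Λ, f0 y * ψ y) (∑' y, R y * ψ y)
    rw [← e1] at e4
    linarith
  have hPlow : c ^ 2 / (16 * η) ≤ P := by
    have h1 : (c / 2) ^ 2 ≤ (2 * (η * Q)) ^ 2 := pow_le_pow_left₀ (by positivity) hmain 2
    have h2 : Q ^ 2 = P / η := Real.sq_sqrt (by positivity)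
    have h3 : (2 * (η * Q)) ^ 2 = 4 * (η * P) := by
      have : (2 * (η * Q)) ^ 2 = 4 * η ^ 2 * Q ^ 2 := by ring
      rw [this, h2]
      field_simp
    rw [h3] at h1
    rw [div_le_iff₀ (by positivity)]
    nlinarith
  refine ⟨hPlow, ?_⟩
  have hsch := schur_diag A hAs (Am_diag h ρ Λ s) V' E hη X
  set S := Sg A V' E η X with hS
  have hS0 : 0 ≤ S.im := Sg_im_nonneg A hAs V' E hη X
  have him : ((V' X : ℂ) - ((E : ℂ) + (η : ℂ) * Complex.I + S)).im = -(η + S.im) := by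
    simp
  have hn : η + S.im ≤ ‖(V' X : ℂ) - ((E : ℂ) + (η : ℂ) * Complex.I + S)‖ := by
    have := Complex.abs_im_le_norm ((V' X : ℂ) - ((E : ℂ) + (η : ℂ) * Complex.I + S))
    rw [him, abs_neg] at this
    exact (le_abs_self _).trans this
  have hPn : P ≤ ‖Gm A V' E η X X‖ := (le_abs_self _).trans (Complex.abs_im_le_norm _)
  rw [hsch, norm_inv] at hPn
  have hpos : 0 < η + S.im := by linarith
  have h5 : P ≤ (η + S.im)⁻¹ := hPn.trans (inv_anti₀ hpos hn)
  have h6 : P * (η + S.im) ≤ 1 := by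
    calc P * (η + S.im) ≤ (η + S.im)⁻¹ * (η + S.im) := mul_le_mul_of_nonneg_right h5 hpos.le
      _ = 1 := inv_mul_cancel₀ hpos.ne'
  have h7 : c ^ 2 / (16 * η) * (η + S.im) ≤ 1 :=
    (mul_le_mul_of_nonneg_right hPlow hpos.le).trans h6
  have h8 : c ^ 2 * (η + S.im) ≤ 16 * η := by
    rw [div_mul_eq_mul_div, div_le_one (by positivity)] at h7
    exact h7
  have h9 : S.im ≤ η + S.im := by linarith
  refine h9.trans ?_
  rw [div_mul_eq_mul_div, le_div_iff₀ (by positivity)]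
  linarith

end Pool.Agent.Q139.LR
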